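import Pool.Agent.Helper40.GO.GoalsQ
import Pool.Agent.Helper8.GO.CHN

/-!
# Project GO (MP_6af536_nt), packet QPAD: the p-adic statement
-/

set_option autoImplicit false

open MvPolynomial Filter Topology

namespace Pool.Agent.Helper14.GO

open Pool.Agent.Helper10.GO Pool.Agent.Helper40.GO

section per

theorem evPer_iter {P : ℕ → Prop} {p n₀ : ℕ} (h : ∀ n, n₀ ≤ n → (P n ↔ P (n + p))) (k : ℕ) :
    ∀ n, n₀ ≤ n → (P n ↔ P (n + p * k)) := by
  induction k with
  | zero =>
    intro n _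
    simp
  | succ k ih =>
    intro n hn
    rw [ih n hn, h (n + p * k) (by omega)]
    rw [show n + p * k + p = n + p * (k + 1) by ring]

theorem evPer_ap {P : ℕ → Prop} (a₀ n₀ : ℕ) (ha : 1 ≤ a₀)
    (h : ∀ r < a₀, EvPer fun q => P (n₀ + r + a₀ * q)) : EvPer P := by
  choose! per hper st hst using h
  refine ⟨a₀ * ∏ r ∈ Finset.range a₀, per r, ?_, n₀ + a₀ * (Finset.range a₀).sup st, ?_⟩
  · have : 0 < ∏ r ∈ Finset.range a₀, per r :=
      Finset.prod_pos fun r hr => hper r (Finset.mem_range.1 hr)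
    exact Nat.mul_pos ha this
  · intro n hn
    set r := (n - n₀) % a₀ with hr
    set q := (n - n₀) / a₀ with hq
    have hra : r < a₀ := Nat.mod_lt _ ha
    have hn0 : n₀ ≤ n := by omega
    have hdm : a₀ * q + r = n - n₀ := Nat.div_add_mod (n - n₀) a₀
    have hne : n = n₀ + r + a₀ * q := by omega
    have hsq : st r ≤ q := by
      have h1 : st r ≤ (Finset.range a₀).sup st :=
        Finset.le_sup (f := st) (Finset.mem_range.2 hra)
      have h2 : (Finset.range a₀).sup st ≤ q := by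
        rw [hq, Nat.le_div_iff_mul_le ha]
        have : (Finset.range a₀).sup st * a₀ = a₀ * (Finset.range a₀).sup st := mul_comm _ _
        omega
      exact h1.trans h2
    obtain ⟨k, hk⟩ : per r ∣ ∏ r ∈ Finset.range a₀, per r :=
      Finset.dvd_prod_of_mem _ (Finset.mem_range.2 hra)
    have h3 := evPer_iter (P := fun q => P (n₀ + r + a₀ * q)) (hst r hra) k q hsq
    have h3' : P (n₀ + r + a₀ * q) ↔ P (n₀ + r + a₀ * (q + per r * k)) := h3
    rw [hk]
    rw [hne]
    rw [h3']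
    rw [show n₀ + r + a₀ * (q + per r * k) = n₀ + r + a₀ * q + a₀ * (per r * k) by ring]

end per

section red

variable {p : ℕ} [hpF : Fact p.Prime]

theorem toZMod_eq_zero_iff (x : ℤ_[p]) : PadicInt.toZMod x = 0 ↔ (p : ℤ_[p]) ∣ x := by
  rw [← RingHom.mem_ker, PadicInt.ker_toZMod, PadicInt.maximalIdeal_eq_span_p,
    Ideal.mem_span_singleton]

theorem isUnit_of_toZMod (x : ℤ_[p]) (h : PadicInt.toZMod x ≠ 0) : IsUnit x := by
  by_contra hx
  apply h
  rw [← RingHom.mem_ker, PadicInt.ker_toZMod]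
  exact hx

theorem toZMod_eval {N : ℕ} (b : Fin N → ℤ_[p]) (Q : MvPolynomial (Fin N) ℤ_[p]) :
    PadicInt.toZMod (eval b Q) =
      eval (fun i => PadicInt.toZMod (b i)) (map (PadicInt.toZMod : ℤ_[p] →+* ZMod p) Q) := by
  rw [eval_map]
  show PadicInt.toZMod (eval₂ (RingHom.id _) b Q) = _
  rw [eval₂_comp_left, RingHom.comp_id]
  rfl

end red

section comp

variable {R : Type} [CommRing R] {N : ℕ}

/-- The Jacobian matrix at a point. -/
noncomputable def Jm (g : Fin N → MvPolynomial (Fin N) R) (b : Fin N → R) :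
    Matrix (Fin N) (Fin N) R := Matrix.of fun i j => eval b (pderiv j (g i))

theorem eval_aeval (h : Fin N → MvPolynomial (Fin N) R) (b : Fin N → R)
    (Q : MvPolynomial (Fin N) R) : eval b (aeval h Q) = eval (fun k => eval b (h k)) Q := by
  induction Q using MvPolynomial.induction_on with
  | C c => simp [algebraMap_eq]
  | add q q' hq hq' => simp only [map_add, hq, hq']
  | mul_X q i hq => simp only [map_mul, hq, aeval_X, eval_X]

theorem Jm_comp (g h : Fin N → MvPolynomial (Fin N) R) (b : Fin N → R) :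
    Jm (fun i => aeval h (g i)) b = Jm g (fun k => eval b (h k)) * Jm h b := by
  ext i j
  rw [Matrix.mul_apply]
  show eval b (pderiv j (aeval h (g i))) = _
  rw [Pool.Agent.Helper8.GO.chn1, map_sum]
  refine Finset.sum_congr rfl fun l _ => ?_
  rw [map_mul, eval_aeval]
  rfl

theorem Jm_det (g : Fin N → MvPolynomial (Fin N) R) (b : Fin N → R) :
    (Jm g b).det = eval b (jac g).det := by
  rw [RingHom.map_det]
  rfl

/-- The compositions. -/
noncomputable def hh (g : ℕ → Fin N → MvPolynomial (Fin N) R) : ℕ → Fin N → MvPolynomial (Fin N) R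
  | 0 => X
  | m + 1 => fun i => aeval (hh g m) (g m i)

theorem hh_eval (g : ℕ → Fin N → MvPolynomial (Fin N) R) (a : ℕ → Fin N → R)
    (hs : ∀ m i, a (m + 1) i = eval (a m) (g m i)) (m : ℕ) (i : Fin N) :
    eval (a 0) (hh g m i) = a m i := by
  induction m generalizing i with
  | zero => exact eval_X i
  | succ m ih =>
    show eval (a 0) (aeval (hh g m) (g m i)) = _
    rw [eval_aeval, hs]
    congr 2
    funext k
    exact ih k

theorem hh_unit (g : ℕ → Fin N → MvPolynomial (Fin N) R) (a : ℕ → Fin N → R)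
    (hs : ∀ m i, a (m + 1) i = eval (a m) (g m i)) (hu : ∀ m, IsUnit (Jm (g m) (a m)).det)
    (m : ℕ) : IsUnit (Jm (hh g m) (a 0)).det := by
  induction m with
  | zero =>
    have : Jm (hh g 0) (a 0) = 1 := by
      ext i j
      show eval (a 0) (pderiv j (X i)) = _
      rw [pderiv_X, Matrix.one_apply, Pi.single_apply]
      split_ifs <;> simp
    rw [this, Matrix.det_one]
    exact isUnit_one
  | succ m ih =>
    have e : Jm (hh g (m + 1)) (a 0) = Jm (g m) (a m) * Jm (hh g m) (a 0) := by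
      show Jm (fun i => aeval (hh g m) (g m i)) (a 0) = _
      rw [Jm_comp]
      congr 2
      funext k
      exact hh_eval g a hs m k
    rw [e, Matrix.det_mul]
    exact (hu m).mul ih

end comp

theorem seq_evPer (hPDM2 : S_PDM2) (p : ℕ) [Fact p.Prime] (N : ℕ)
    (g : ℕ → Fin N → MvPolynomial (Fin N) ℤ_[p]) (a : ℕ → Fin N → ℤ_[p])
    (φ : MvPolynomial (Fin N) ℤ_[p]) (hp3 : 3 ≤ p)
    (hs : ∀ n i, a (n + 1) i = eval (a n) (g n i)) (hu : ∀ n, IsUnit (Jm (g n) (a n)).det)
    (n₀ a₀ : ℕ) (ha : 1 ≤ a₀) (hper : ∀ n, n₀ ≤ n → g (n + a₀) = g n) :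
    EvPer fun n => eval (a n) φ = 0 := by
  have hperk : ∀ q n, n₀ ≤ n → g (n + a₀ * q) = g n := by
    intro q
    induction q with
    | zero => intro n _; simp
    | succ q ih =>
      intro n hn
      rw [show n + a₀ * (q + 1) = (n + a₀ * q) + a₀ by ring, hper _ (by omega), ih n hn]
  refine evPer_ap a₀ n₀ ha fun r _ => ?_
  -- the composition
  have hsh : ∀ q, (fun m => g (n₀ + r + a₀ * q + m)) = fun m => g (n₀ + r + m) := by
    intro q
    funext m
    rw [show n₀ + r + a₀ * q + m = (n₀ + r + m) + a₀ * q by ring]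
    exact hperk q _ (by omega)
  have hA : ∀ q i, eval (a (n₀ + r + a₀ * q)) (hh (fun m => g (n₀ + r + m)) a₀ i) =
      a (n₀ + r + a₀ * (q + 1)) i := by
    intro q i
    have h1 := hh_eval (fun m => g (n₀ + r + a₀ * q + m)) (fun m => a (n₀ + r + a₀ * q + m))
      (fun m i => hs _ i) a₀ i
    rw [hsh q] at h1
    have h2 : eval (a (n₀ + r + a₀ * q)) (hh (fun m => g (n₀ + r + m)) a₀ i) =
      a (n₀ + r + a₀ * q + a₀) i := h1
    rw [h2, show n₀ + r + a₀ * q + a₀ = n₀ + r + a₀ * (q + 1) by ring]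
  have hB : ∀ q, IsUnit (eval (a (n₀ + r + a₀ * q)) (jac (hh (fun m => g (n₀ + r + m)) a₀)).det) := by
    intro q
    have h1 := hh_unit (fun m => g (n₀ + r + a₀ * q + m)) (fun m => a (n₀ + r + a₀ * q + m))
      (fun m i => hs _ i) (fun m => hu _) a₀
    rw [hsh q, Jm_det] at h1
    exact h1
  exact hPDM2 p N (hh (fun m => g (n₀ + r + m)) a₀) (fun q => a (n₀ + r + a₀ * q)) φ hp3 hB
    (fun q i => (hA q i).symm)

theorem qpad (hQLIN : S_QLIN) (hPDM2 : S_PDM2) : S_QPAD := by
  classical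
  intro p hpF N r s G E a l φ hp3 hstep hE hl hunr
  -- residues
  set ρ : ℕ → Fin N → ZMod p := fun n i => PadicInt.toZMod (a n i) with hρ
  have hρl : ∀ n m, ρ n = ρ m → l n = l m := by
    intro n m h
    apply hl
    intro i
    rw [← toZMod_eq_zero_iff, map_sub, sub_eq_zero]
    exact congrFun h i
  have hev : ∀ n m, ρ n = ρ m → ∀ Q : MvPolynomial (Fin N) ℤ_[p],
      PadicInt.toZMod (eval (a n) Q) = PadicInt.toZMod (eval (a m) Q) := by
    intro n m h Q
    rw [toZMod_eval, toZMod_eval]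
    have h' : (fun i => PadicInt.toZMod (a n i)) = fun i => PadicInt.toZMod (a m i) := h
    rw [h']
  have hρs : ∀ n m, ρ n = ρ m → ρ (n + 1) = ρ (m + 1) := by
    intro n m h
    funext i
    show PadicInt.toZMod (a (n + 1) i) = PadicInt.toZMod (a (m + 1) i)
    rw [hstep, hstep, hρl n m h]
    exact hev n m h _
  have hρk : ∀ k n m, ρ n = ρ m → ρ (n + k) = ρ (m + k) := by
    intro k
    induction k with
    | zero => intro n m h; exact h
    | succ k ih => intro n m h; exact hρs _ _ (ih n m h)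
  -- eventually periodic
  obtain ⟨n₀, m₀, hnm, hnm'⟩ : ∃ n₀ m₀ : ℕ, n₀ < m₀ ∧ ρ n₀ = ρ m₀ := by
    obtain ⟨x, y, hxy, h⟩ := Finite.exists_ne_map_eq_of_infinite ρ
    rcases lt_or_gt_of_ne hxy with h1 | h1
    · exact ⟨x, y, h1, h⟩
    · exact ⟨y, x, h1, h.symm⟩
  have hρper : ∀ n, n₀ ≤ n → ρ (n + (m₀ - n₀)) = ρ n := by
    intro n hn
    obtain ⟨k, rfl⟩ := Nat.exists_eq_add_of_le hn
    rw [show n₀ + k + (m₀ - n₀) = m₀ + k by omega]
    exact (hρk k n₀ m₀ hnm').symm
  -- the matrices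
  let Ab : ℕ → Matrix (Fin N) (Fin N) (ZMod p) := fun n =>
    Matrix.of fun i j => PadicInt.toZMod (eval (a n) (pderiv j (G (l n) i)))
  let Bb : ℕ → Matrix (Fin s) (Fin N) (ZMod p) := fun n =>
    Matrix.of fun i j => PadicInt.toZMod (eval (a n) (pderiv j (E i)))
  have hAb : ∀ n m, ρ n = ρ m → Ab n = Ab m := by
    intro n m h
    ext i j
    show PadicInt.toZMod (eval (a n) (pderiv j (G (l n) i))) =
      PadicInt.toZMod (eval (a m) (pderiv j (G (l m) i)))
    rw [hρl n m h]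
    exact hev n m h _
  have hBb : ∀ n m, ρ n = ρ m → Bb n = Bb m := by
    intro n m h
    ext i j
    exact hev n m h _
  have hW0 : ∀ n, ∃ W : Matrix (Fin N) (Fin s) (ZMod p), (Ab n + W * Bb n).det ≠ 0 := by
    intro n
    apply hQLIN
    intro v h1 h2
    apply hunr n v
    · intro i
      exact congrFun h1 i
    · intro i
      exact congrFun h2 i
  have hW1 : ∀ z : Fin N → ZMod p, ∃ W : Matrix (Fin N) (Fin s) (ZMod p),
      ∀ n, ρ n = z → (Ab n + W * Bb n).det ≠ 0 := by
    intro z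
    by_cases hz : ∃ n, ρ n = z
    · obtain ⟨n, rfl⟩ := hz
      obtain ⟨W, hW⟩ := hW0 n
      refine ⟨W, fun m hm => ?_⟩
      rw [hAb m n hm, hBb m n hm]
      exact hW
    · exact ⟨0, fun n hn => (hz ⟨n, hn⟩).elim⟩
  choose Wz hWz using hW1
  have hlift : ∀ x : ZMod p, ∃ y : ℤ_[p], PadicInt.toZMod y = x :=
    fun x => ZMod.ringHom_surjective (PadicInt.toZMod : ℤ_[p] →+* ZMod p) x
  choose L hL using hlift
  -- the new maps
  set g : ℕ → Fin N → MvPolynomial (Fin N) ℤ_[p] := fun n i =>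
    G (l n) i + ∑ t, C (L (Wz (ρ n) i t)) * E t with hg
  refine seq_evPer hPDM2 p N g a φ hp3 ?_ ?_ n₀ (m₀ - n₀) (by omega) ?_
  · intro n i
    show a (n + 1) i = eval (a n) (G (l n) i + ∑ t, C (L (Wz (ρ n) i t)) * E t)
    rw [map_add, map_sum, hstep]
    simp [hE]
  · intro n
    apply isUnit_of_toZMod
    rw [RingHom.map_det]
    have e : (PadicInt.toZMod : ℤ_[p] →+* ZMod p).mapMatrix (Jm (g n) (a n)) =
        Ab n + Wz (ρ n) * Bb n := by
      ext i j
      rw [Matrix.add_apply, Matrix.mul_apply]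
      show PadicInt.toZMod (eval (a n) (pderiv j (G (l n) i + ∑ t, C (L (Wz (ρ n) i t)) * E t))) = _
      rw [map_add, map_add, map_add, map_sum, map_sum, map_sum]
      refine congrArg₂ (· + ·) rfl (Finset.sum_congr rfl fun t _ => ?_)
      rw [pderiv_C_mul, map_mul, eval_C, map_mul, hL]
      rfl
    rw [e]
    exact hWz (ρ n) n rfl
  · intro n hn
    funext i
    have h1 := hρper n hn
    show G (l (n + (m₀ - n₀))) i + ∑ t, C (L (Wz (ρ (n + (m₀ - n₀))) i t)) * E t =
      G (l n) i + ∑ t, C (L (Wz (ρ n) i t)) * E t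
    rw [h1, hρl _ _ h1]

end Pool.Agent.Helper14.GO
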