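import Pool.Agent.Helper10.GO.GoalsC

/-!
# Project GO (MP_6af536_nt), packet VTRI: the triple products
-/

set_option autoImplicit false

open MvPolynomial Filter Topology

namespace Pool.Agent.Helper14.GO

open Pool.Agent.Helper10.GO Pool.Agent.Helper80.HD Pool.Agent.Helper80.AD

theorem sp_fg (K : Type) {L : Type} [Field K] [Field L] [Algebra K L] {N : ℕ}
    (x : Fin (N + 1) → L) : (sp K x).FG := Submodule.fg_span (Set.finite_range x)

theorem vtri (hPET : S_PET) (hISO : S_ISO) : S_VTRI := by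
  intro K _ _ N δ d Γ ξ D hG hV m a b b' e ha hb he ε hε
  obtain ⟨-, -, -, hiso⟩ := hISO K N δ Γ ξ hG
  -- the two limits
  have hf := hV.lim m a (b + b') ha (by omega)
  have hg := hV.lim m b e hb he
  have hfg := ((hf.mul hg).const_mul (d.factorial : ℝ))
  push_cast at hfg
  have hev := hfg.eventually (gt_mem_nhds (lt_add_of_pos_right _ hε))
  filter_upwards [hev, eventually_ge_atTop 1] with t ht ht1
  have htp : (0 : ℝ) < (t : ℝ) ^ d := by
    have : (0 : ℝ) < t := by exact_mod_cast ht1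
    positivity
  have hdf : (0 : ℝ) < (d.factorial : ℝ) := by exact_mod_cast d.factorial_pos
  -- Petridis
  have h1 := hPET K ℂ (sp K (ξ 0) ^ (a * t) * sp K (ξ m) ^ (b' * t)) (sp K (ξ m) ^ (b * t))
    (sp K (ξ (2 * m)) ^ (e * t)) (((sp_fg K _).pow _).mul ((sp_fg K _).pow _))
    ((sp_fg K _).pow _) ((sp_fg K _).pow _)
  have e1 : sp K (ξ 0) ^ (a * t) * sp K (ξ m) ^ (b' * t) * sp K (ξ m) ^ (b * t) =
      sp K (ξ 0) ^ (a * t) * sp K (ξ m) ^ ((b + b') * t) := by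
    rw [mul_assoc, ← pow_add]
    congr 2
    ring
  have e2 : Module.finrank K (sp K (ξ m) ^ (b * t) * sp K (ξ (2 * m)) ^ (e * t) :
      Submodule K ℂ) = Module.finrank K (sp K (ξ 0) ^ (b * t) * sp K (ξ m) ^ (e * t) :
      Submodule K ℂ) := by
    rw [two_mul]
    exact hiso m m (b * t) (e * t)
  have e3 : Module.finrank K (sp K (ξ m) ^ (b * t) : Submodule K ℂ) =
      Module.finrank K (sp K (ξ 0) ^ (b * t) : Submodule K ℂ) := by
    have h2 := hiso m 0 (b * t) 0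
    rwa [pow_zero, mul_one, pow_zero, mul_one] at h2
  rw [e1, e2, e3] at h1
  set F : ℕ := Module.finrank K (sp K (ξ 0) ^ (a * t) * sp K (ξ m) ^ (b' * t) *
    sp K (ξ (2 * m)) ^ (e * t) : Submodule K ℂ) with hF
  set f : ℕ := Module.finrank K (sp K (ξ 0) ^ (a * t) * sp K (ξ m) ^ ((b + b') * t) :
    Submodule K ℂ) with hf'
  set g : ℕ := Module.finrank K (sp K (ξ 0) ^ (b * t) * sp K (ξ m) ^ (e * t) :
    Submodule K ℂ) with hg'
  have h2 := hV.low (b * t)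
  have h3 : (F : ℝ) * (Module.finrank K (sp K (ξ 0) ^ (b * t) : Submodule K ℂ) : ℝ) ≤
      (f : ℝ) * g := by exact_mod_cast h1
  have h4 : (F : ℝ) * ((((b * t : ℕ) : ℝ)) ^ d / (d.factorial : ℝ)) ≤ (f : ℝ) * g :=
    (mul_le_mul_of_nonneg_left h2 (Nat.cast_nonneg F)).trans h3
  have h5 : (F : ℝ) * (b : ℝ) ^ d * (t : ℝ) ^ d ≤ (d.factorial : ℝ) * ((f : ℝ) * g) := by
    have h6 := mul_le_mul_of_nonneg_left h4 hdf.le
    have e4 : (d.factorial : ℝ) * ((F : ℝ) * ((((b * t : ℕ) : ℝ)) ^ d / (d.factorial : ℝ))) =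
        (F : ℝ) * (b : ℝ) ^ d * (t : ℝ) ^ d := by
      push_cast
      field_simp
      rw [mul_pow]
      ring
    rwa [e4] at h6
  have h7 : (d.factorial : ℝ) * ((f : ℝ) / (t : ℝ) ^ d * ((g : ℝ) / (t : ℝ) ^ d)) *
      (t : ℝ) ^ d * (t : ℝ) ^ d = (d.factorial : ℝ) * ((f : ℝ) * g) := by
    field_simp
  have h8 : (F : ℝ) * (b : ℝ) ^ d ≤
      (d.factorial : ℝ) * ((f : ℝ) / (t : ℝ) ^ d * ((g : ℝ) / (t : ℝ) ^ d)) * (t : ℝ) ^ d := by
    rw [← h7] at h5
    exact le_of_mul_le_mul_right h5 htp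
  refine h8.trans (mul_le_mul_of_nonneg_right ?_ htp.le)
  refine ht.le.trans (le_of_eq ?_)
  ring

end Pool.Agent.Helper14.GO
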